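import Pool.Agent.Lib.MP_799fdf_al.Crt.Defs

set_option autoImplicit false

open scoped commutatorElement

namespace MP799fdf

namespace Crt

open Inn

/-- PROOF. `h` and `h'` have `p`-power order, so both lie in the finite cyclic group `C = zpowers c`. A finite cyclic
group has at most `p` elements with `x ^ p = 1` (`IsCyclic.card_pow_eq_one_le`), and `zpowers h` has `p` such
elements (`orderOf h = p` by `orderOf_eq_prime`), so `h'` is one of them. (Other way: `C` is cyclic and finite, subgroups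
of the same order `p` of a cyclic group are equal.) -/
theorem zp_mem {G : Type} [Group G] [Finite G] {p : ℕ} (hp : p.Prime) (c : G) (h h' : G)
    (hc : h ∈ Subgroup.zpowers c) (hc' : h' ∈ Subgroup.zpowers c) (h1 : h ≠ 1)
    (hhp : h ^ p = 1) (hhp' : h' ^ p = 1) : h' ∈ Subgroup.zpowers h := by
  classical
  have := Fintype.ofFinite (Subgroup.zpowers c)
  set a : Subgroup.zpowers c := ⟨h, hc⟩ with ha
  set b : Subgroup.zpowers c := ⟨h', hc'⟩ with hb
  have hord : orderOf a = p := by
    have := Fact.mk hp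
    refine orderOf_eq_prime ?_ ?_
    · exact Subtype.ext hhp
    · intro hcon
      exact h1 (congrArg Subtype.val hcon)
  have hS := IsCyclic.card_pow_eq_one_le (α := Subgroup.zpowers c) hp.pos
  have hT : (Finset.univ.filter fun x : Subgroup.zpowers c => x ∈ Subgroup.zpowers a).card = p := by
    rw [← Fintype.card_subtype, ← hord]
    exact Fintype.card_zpowers
  have hsub : (Finset.univ.filter fun x : Subgroup.zpowers c => x ∈ Subgroup.zpowers a) ⊆
      (Finset.univ.filter fun x : Subgroup.zpowers c => x ^ p = 1) := by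
    intro x hx
    rw [Finset.mem_filter] at hx ⊢
    refine ⟨hx.1, ?_⟩
    obtain ⟨k, hk⟩ := Subgroup.mem_zpowers_iff.1 hx.2
    have hap : a ^ p = 1 := Subtype.ext hhp
    rw [← hk, ← zpow_natCast, ← zpow_mul, mul_comm, zpow_mul, zpow_natCast, hap, one_zpow]
  have heq := Finset.eq_of_subset_of_card_le hsub (hS.trans hT.ge)
  have hbS : b ∈ (Finset.univ.filter fun x : Subgroup.zpowers c => x ^ p = 1) :=
    Finset.mem_filter.2 ⟨Finset.mem_univ _, Subtype.ext hhp'⟩
  rw [← heq, Finset.mem_filter] at hbS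
  obtain ⟨k, hk⟩ := Subgroup.mem_zpowers_iff.1 hbS.2
  refine Subgroup.mem_zpowers_iff.2 ⟨k, ?_⟩
  have h5 := congrArg Subtype.val hk
  rw [Subgroup.coe_zpow] at h5
  exact h5

/-- PROOF. By `zp_mem` (both have `p`-power order, take `k = 1`). -/
theorem zp_mem' {G : Type} [Group G] [Finite G] {p : ℕ} (hp : p.Prime) (N : Subgroup G)
    (hN : Cyc p N) (h h' : G) (hh : h ∈ N) (hh' : h' ∈ N) (h1 : h ≠ 1)
    (hhp : h ^ p = 1) (hhp' : h' ^ p = 1) : h' ∈ Subgroup.zpowers h := by
  obtain ⟨c, -, hc⟩ := hN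
  exact zp_mem hp c h h' (hc h hh ⟨1, by rwa [pow_one]⟩) (hc h' hh' ⟨1, by rwa [pow_one]⟩) h1 hhp hhp'

/-- PROOF. `p = 2`: `h` and `h'` are elements of order 2 with `h' ∈ zpowers h`, `h' ≠ 1`, so `h' = h`
(`h' = h ^ k`; `k` even gives `h' = 1`, `k` odd gives `h' = h`). -/
theorem zp_two {G : Type} [Group G] (h h' : G) (h1' : h' ≠ 1) (hh : h ^ 2 = 1)
    (hm : h' ∈ Subgroup.zpowers h) : h' = h := by
  obtain ⟨k, hk⟩ := Subgroup.mem_zpowers_iff.1 hm
  have h2 : h ^ (2 : ℤ) = 1 := by exact_mod_cast hh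
  rcases Int.even_or_odd' k with ⟨m, rfl | rfl⟩
  · rw [zpow_mul, h2, one_zpow] at hk
    exact absurd hk.symm h1'
  · rw [zpow_add, zpow_mul, h2, one_zpow, one_mul, zpow_one] at hk
    exact hk.symm

end Crt

end MP799fdf
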