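import Pool.Agent.Lib.MP_799fdf_al.Crt.Defs

set_option autoImplicit false

open scoped commutatorElement

namespace MP799fdf

namespace Crt

open Inn

/-- PROOF. Work in the quotient by `Y` (normal, since it is central): `H.map (mk' Y)` has order `Y.relIndex H`
(`Subgroup.relIndex_ker`), divisible by `p`, so by Cauchy (`exists_prime_orderOf_dvd_card'`) there is `y ∈ H` with
`y ∉ Y`, `y ^ p ∈ Y`. Let `m = p ^ a * b` be the order of `y` with `b` prime to `p` (`Nat.exists_eq_pow_mul_and_not_dvd`);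
`z = y ^ b` has `p`-power order, `z ^ p ∈ Y`, and `z ∉ Y` (otherwise `y ∈ Y`, because `b` and `p` are coprime:
`y = (y ^ b) ^ s * (y ^ p) ^ t`). -/
theorem exists_z {R : Type} [Group R] [Finite R] {p : ℕ} (hp : p.Prime) (Y H : Subgroup R)
    (hH : ∀ z ∈ H, ∀ x, Commute z x) (hYH : Y ≤ H) (hd : p ∣ Y.relIndex H) :
    ∃ z ∈ H, z ∉ Y ∧ z ^ p ∈ Y ∧ ∃ k : ℕ, z ^ p ^ k = 1 := by
  classical
  have hYn : Y.Normal := ⟨fun n hn g => by
    have h : g * n * g⁻¹ = n := by
      rw [← (hH n (hYH hn) g).eq, mul_inv_cancel_right]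
    rw [h]
    exact hn⟩
  have hker : (QuotientGroup.mk' Y).ker = Y := QuotientGroup.ker_mk' Y
  have hcard : Y.relIndex H = Nat.card (H.map (QuotientGroup.mk' Y)) := by
    have h := Subgroup.relIndex_ker H (QuotientGroup.mk' Y)
    rwa [hker] at h
  rw [hcard] at hd
  have : Fact p.Prime := ⟨hp⟩
  obtain ⟨q, hq⟩ := exists_prime_orderOf_dvd_card' p hd
  obtain ⟨y, hyH, hyq⟩ := Subgroup.mem_map.1 q.2
  have hqp : q ^ p = 1 := by rw [← hq]; exact pow_orderOf_eq_one q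
  have hq1 : q ≠ 1 := by
    intro h
    rw [h, orderOf_one] at hq
    exact hp.one_lt.ne hq
  have hyY : y ∉ Y := by
    intro h
    apply hq1
    apply Subtype.ext
    rw [← hyq, OneMemClass.coe_one]
    exact (QuotientGroup.eq_one_iff y).2 h
  have hypY : y ^ p ∈ Y := by
    rw [← QuotientGroup.eq_one_iff (N := Y)]
    have h : (QuotientGroup.mk' Y) (y ^ p) = 1 := by
      rw [map_pow, hyq, ← SubmonoidClass.coe_pow, hqp, OneMemClass.coe_one]
    exact h
  have ho : orderOf y ≠ 0 := (orderOf_pos y).ne'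
  obtain ⟨a, b, hb, hab⟩ := Nat.exists_eq_pow_mul_and_not_dvd ho p hp.ne_one
  refine ⟨y ^ b, H.pow_mem hyH b, ?_, ?_, a, ?_⟩
  · intro hz
    apply hyY
    have hco : Nat.Coprime b p := ((Nat.Prime.coprime_iff_not_dvd hp).2 hb).symm
    have h1 : (y ^ b) ^ (Nat.gcdA b p) * (y ^ p) ^ (Nat.gcdB b p) = y := by
      rw [← zpow_natCast, ← zpow_natCast, ← zpow_mul, ← zpow_mul, ← zpow_add,
        ← Nat.gcd_eq_gcd_ab, hco.gcd_eq_one, Nat.cast_one, zpow_one]
    rw [← h1]
    exact Y.mul_mem (Y.zpow_mem hz _) (Y.zpow_mem hypY _)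
  · rw [← pow_mul, mul_comm, pow_mul]
    exact Y.pow_mem hypY b
  · rw [← pow_mul, mul_comm, ← hab, pow_orderOf_eq_one]

end Crt

end MP799fdf
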