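import Pool.Agent.Lib.MP_799fdf_al.Crt.Defs

set_option autoImplicit false

open scoped commutatorElement

namespace MP799fdf

namespace Crt

open Inn

/-- PROOF. Let `P` be the subgroup of the elements of `p`-power order of `N` (closed under products as `N` is
commutative; or: `P` = the elements of `p`-power order of the cyclic group `zpowers c` that lie in `N`). `P ≤ zpowers c`
is cyclic (`Subgroup.isCyclic`, or `isCyclic_of_injective`), so `P = zpowers d` for some `d ∈ P`. `φ d` has `p`-power order and lies in `N`, so `φ d = d ^ u`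
for some integer `u`, and `φ x = x ^ u` for all `x ∈ P`. Take `u` to be this integer. -/
theorem exists_u {R : Type} [Group R] [Finite R] {p : ℕ} (hp : p.Prime) (N : Subgroup R)
    (hN : ∀ z ∈ N, ∀ x, Commute z x) (hc : Cyc p N) (φ : R →* R) (hφ : ∀ z ∈ N, φ z ∈ N) :
    ∃ u : ℤ, ∀ x ∈ N, (∃ k : ℕ, x ^ p ^ k = 1) → φ x = x ^ u := by
  obtain ⟨c, -, hc⟩ := hc
  let P : Subgroup R :=
    { carrier := {x | x ∈ N ∧ ∃ k : ℕ, x ^ p ^ k = 1}
      one_mem' := ⟨N.one_mem, 0, one_pow _⟩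
      mul_mem' := by
        rintro x y ⟨hx, k, hk⟩ ⟨hy, l, hl⟩
        refine ⟨N.mul_mem hx hy, k + l, ?_⟩
        rw [(hN x hx y).mul_pow, pow_add, pow_mul, hk, one_pow, one_mul, mul_comm, pow_mul, hl,
          one_pow]
      inv_mem' := by
        rintro x ⟨hx, k, hk⟩
        exact ⟨N.inv_mem hx, k, by rw [inv_pow, hk, inv_one]⟩ }
  have hP : ∀ x, x ∈ P ↔ x ∈ N ∧ ∃ k : ℕ, x ^ p ^ k = 1 := fun x => Iff.rfl
  have hle : P ≤ Subgroup.zpowers c := fun x hx => hc x hx.1 hx.2
  have : IsCyclic P := isCyclic_of_injective (Subgroup.inclusion hle)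
    (Subgroup.inclusion_injective hle)
  obtain ⟨d, hd⟩ := IsCyclic.exists_zpow_surjective (G := P)
  have hφd : φ d ∈ P := by
    obtain ⟨h1, k, hk⟩ := (hP d).1 d.2
    exact ⟨hφ _ h1, k, by rw [← map_pow, hk, map_one]⟩
  obtain ⟨u, hu⟩ := hd ⟨φ d, hφd⟩
  have hu' : (d : R) ^ u = φ d := by
    have := congrArg Subtype.val hu
    simpa using this
  refine ⟨u, fun x hx hk => ?_⟩
  obtain ⟨m, hm⟩ := hd ⟨x, (hP x).2 ⟨hx, hk⟩⟩
  have hm' : (d : R) ^ m = x := by
    have := congrArg Subtype.val hm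
    simpa using this
  rw [← hm', map_zpow, ← hu', ← zpow_mul, ← zpow_mul, mul_comm]

end Crt

end MP799fdf
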