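import Pool.Agent.Lib.MP_799fdf_al.Crt.CycB
import Pool.Agent.Lib.MP_799fdf_al.Crt.CycB2

set_option autoImplicit false

open scoped commutatorElement

namespace MP799fdf

namespace Crt

open Inn

/-- PROOF. `exists_z`: `z`; `exists_u`: `u` with `φ z = z ^ u`, `φ h = h ^ u`. `z ^ (u - 1) = φ z * z⁻¹ ∈ Y`. If `p` does
not divide `u - 1` then `u - 1` and `p` are coprime and `z ∈ Y` (`z ^ (u - 1) ∈ Y`, `z ^ p ∈ Y`), a contradiction. So
`p ∣ u - 1` and `φ h = h ^ u = h * (h ^ p) ^ _ = h`. -/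
theorem cyc_fix {R : Type} [Group R] [Finite R] {p : ℕ} (hp : p.Prime) (N Y H : Subgroup R)
    (hN : ∀ z ∈ N, ∀ x, Commute z x) (hc : Cyc p N) (φ : R →* R) (hφ : ∀ z ∈ N, φ z ∈ N)
    (hHN : H ≤ N) (hYH : Y ≤ H) (hd : p ∣ Y.relIndex H) (hf : ∀ z ∈ H, φ z * z⁻¹ ∈ Y)
    (h : R) (hh : h ∈ N) (hhp : h ^ p = 1) : φ h = h := by
  obtain ⟨z, hzH, hzY, hzp, k, hzk⟩ := exists_z hp Y H (fun z hz => hN z (hHN hz)) hYH hd
  obtain ⟨u, hu⟩ := exists_u hp N hN hc φ hφ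
  have e1 : φ z = z ^ u := hu z (hHN hzH) ⟨k, hzk⟩
  have e2 : φ h = h ^ u := hu h hh ⟨1, by rw [pow_one]; exact hhp⟩
  have e3 : z ^ (u - 1) ∈ Y := by
    have h3 := hf z hzH
    rwa [e1, ← zpow_sub_one] at h3
  have hdiv : (p : ℤ) ∣ u - 1 := by
    by_contra hnd
    obtain ⟨a, b, hab⟩ := ((Nat.prime_iff_prime_int.1 hp).coprime_iff_not_dvd).2 hnd
    apply hzY
    have h4 : (z ^ p) ^ a * (z ^ (u - 1)) ^ b = z := by
      rw [← zpow_natCast, ← zpow_mul, ← zpow_mul, ← zpow_add]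
      have h5 : (p : ℤ) * a + (u - 1) * b = 1 := by linarith
      rw [h5, zpow_one]
    rw [← h4]
    exact Y.mul_mem (Y.zpow_mem hzp a) (Y.zpow_mem e3 b)
  obtain ⟨c, hc'⟩ := hdiv
  have h6 : u = 1 + (p : ℤ) * c := by linarith
  rw [e2, h6, zpow_add, zpow_one, zpow_mul, zpow_natCast, hhp, one_zpow, mul_one]

end Crt

end MP799fdf
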