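import Pool.Agent.Lib.MP_799fdf_al.Tz.FinU
import Pool.Agent.Lib.MP_799fdf_al.Knf.Fin
import Pool.Agent.Lib.MP_799fdf_al.Knf.Setp

/-! # The criterion: definitions -/

set_option autoImplicit false

open scoped commutatorElement

namespace MP799fdf

namespace Crt

open Inn

/-- the elements of `p`-power order of `N` lie in a cyclic subgroup of `N` -/
def Cyc {G : Type} [Group G] (p : ℕ) (N : Subgroup G) : Prop :=
  ∃ c ∈ N, ∀ x ∈ N, (∃ k : ℕ, x ^ p ^ k = 1) → x ∈ Subgroup.zpowers c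

/-- isomorphisms between the groups `G / C(R)` lift -/
def Lifts (G : Type) [Group G] : Prop :=
  ∀ R N R' N' Z Z' : Subgroup G, Loc R N → Loc R' N' → ∀ [Z.Normal] [Z'.Normal],
    Z = Subgroup.centralizer (R : Set G) → Z' = Subgroup.centralizer (R' : Set G) →
    ∀ σ : (G ⧸ Z) ≃* (G ⧸ Z'), ∃ τ : R ≃* R',
      ∀ r : R, (((τ r : R') : G) : G ⧸ Z') = σ ((r : G) : G ⧸ Z)

/-- some automorphism of `G / Z` that is trivial modulo `R Z` has a lift that moves an element of `N` with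
`h ^ p = 1` -/
def Moved {G : Type} [Group G] (p : ℕ) (R N Z : Subgroup G) [Z.Normal] : Prop :=
  ∃ (σ : (G ⧸ Z) ≃* (G ⧸ Z)) (τ : R ≃* R),
    (∀ r : R, (((τ r : R) : G) : G ⧸ Z) = σ ((r : G) : G ⧸ Z)) ∧
      (∀ x y : G, σ (x : G ⧸ Z) = (y : G ⧸ Z) → x⁻¹ * y ∈ R ⊔ Z) ∧
        ∃ h : R, (h : G) ∈ N ∧ h ^ p = 1 ∧ τ h ≠ h

end Crt

end MP799fdf
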