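import Pool.Agent.Lib.MP_799fdf_al.Crt.QuoB
import Pool.Agent.Lib.MP_799fdf_al.Crt.CycA

set_option autoImplicit false

open scoped commutatorElement

namespace MP799fdf

namespace Crt

open Inn

variable {G : Type} [Group G] {R N D Z A B : Subgroup G} [D.Normal]

/-- A lift of an automorphism of `G / Z` maps `N` into `N`. -/
theorem lift_mem_N [Z.Normal] (hloc : Loc R N) (hcen : ⁅N, R⁆ = ⊥)
    (hZ : Z = Subgroup.centralizer (R : Set G)) (σ : (G ⧸ Z) ≃* (G ⧸ Z)) (τ : R ≃* R)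
    (hτ : ∀ r : R, (((τ r : R) : G) : G ⧸ Z) = σ ((r : G) : G ⧸ Z)) (x : R) (hx : (x : G) ∈ N) :
    ((τ x : R) : G) ∈ N := by
  have e := Tz.cen_eq hloc hcen
  rw [← hZ] at e
  have hNZ : (x : G) ∈ Z := by
    rw [← e, mem_cen]
    intro y hy
    have h5 : ⁅(x : G), y⁆ ∈ ⁅N, R⁆ := Subgroup.commutator_mem_commutator hx hy
    rw [hcen, Subgroup.mem_bot] at h5
    rw [h5]
    exact N.one_mem
  have h1 : (((τ x : R) : G) : G ⧸ Z) = 1 := by
    rw [hτ x, (QuotientGroup.eq_one_iff _).2 hNZ, map_one]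
  have h2 : ((τ x : R) : G) ∈ Z := (QuotientGroup.eq_one_iff _).1 h1
  refine loc_inf_cen hloc ⟨(τ x).2, ?_⟩
  rw [e]
  exact h2

/-- The infinite direction for one local pair and one prime. PROOF. Apply `Knf.exists_setup` and `Knf.main_inf`
(with `E = G`, `π = mk' D`) to `G ⧸ D` and the images of `R, N, Z, A, B` and of an element `h ∈ N` of order `p` (Cauchy
in `N`). -/
theorem inf_one [Finite G] [Z.Normal] {p : ℕ} (hp : p.Prime) (hloc : Loc R N)
    (hcen : ⁅N, R⁆ = ⊥) (hZ : Z = Subgroup.centralizer (R : Set G)) (hRD : R ⊓ D = ⊥)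
    (hother : ∀ L M : Subgroup G, Loc L M → L ≠ R → L ≤ D)
    (hlift : ∀ σ : (G ⧸ Z) ≃* (G ⧸ Z), ∃ τ : R ≃* R,
      ∀ r : R, (((τ r : R) : G) : G ⧸ Z) = σ ((r : G) : G ⧸ Z))
    (hC : Cyc p N) (hpN : p ∣ Nat.card N)
    (hA : A.Normal) (hB : B.Normal) (hRA : R ⊔ Z ≤ A) (hAB : A < B) (hBA : ⁅B, B⁆ ≤ A)
    (hpB : p ∣ A.relIndex B) (hA2 : A = R ⊔ Z ∨ p = 2) (hM : ¬ Moved p R N Z) :
    {F : Formation | F.IsSub (form G)}.Infinite := by
  have hpf : Fact p.Prime := ⟨hp⟩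
  have hRn := hloc.nR
  have hDn : D.Normal := inferInstance
  -- the element `h`
  obtain ⟨h₀, hh₀⟩ := exists_prime_orderOf_dvd_card' p hpN
  obtain ⟨h, hh⟩ : ∃ h : G, h = (h₀ : G) := ⟨_, rfl⟩
  have hhN : h ∈ N := by
    rw [hh]
    exact h₀.2
  have hhR : h ∈ R := hloc.lt.le hhN
  have hh1 : h ≠ 1 := by
    intro e
    rw [hh] at e
    have e2 : h₀ = 1 := Subtype.ext e
    rw [e2, orderOf_one] at hh₀
    exact hp.one_lt.ne hh₀
  have hhp : h ^ p = 1 := by
    rw [hh, ← Subgroup.coe_pow, ← hh₀, pow_orderOf_eq_one, Subgroup.coe_one]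
  -- `D ≤ Z`, `N ≤ Z`
  have hDZ : D ≤ Z := by
    rw [hZ]
    intro d hd
    rw [Subgroup.mem_centralizer_iff]
    intro r hr
    have h1 : r * d * r⁻¹ * d⁻¹ ∈ R ⊓ D := by
      refine ⟨?_, D.mul_mem (hDn.conj_mem d hd r) (D.inv_mem hd)⟩
      have h2 : r * d * r⁻¹ * d⁻¹ = r * (d * r⁻¹ * d⁻¹) := by group
      rw [h2]
      exact R.mul_mem hr (hRn.conj_mem _ (R.inv_mem hr) d)
    rw [hRD, Subgroup.mem_bot] at h1
    have h3 : r * d = (r * d * r⁻¹ * d⁻¹) * (d * r) := by group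
    rw [h3, h1, one_mul]
  have hNZ : N ≤ Z := by
    rw [hZ]
    intro n hn
    rw [Subgroup.mem_centralizer_iff]
    intro r hr
    have h5 : ⁅n, r⁆ ∈ ⁅N, R⁆ := Subgroup.commutator_mem_commutator hn hr
    rw [hcen, Subgroup.mem_bot] at h5
    exact (commutatorElement_eq_one_iff_commute.1 h5).symm
  have hcen' : ∀ g : G, g ∈ Z ↔ ∀ r ∈ R, g * r = r * g := by
    intro g
    rw [hZ, Subgroup.mem_centralizer_iff]
    exact ⟨fun H r hr => (H r hr).symm, fun H r hr => (H r hr).symm⟩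
  have hRA' : R ≤ A := le_sup_left.trans hRA
  have hZA' : Z ≤ A := le_sup_right.trans hRA
  have hDA : D ≤ A := hDZ.trans hZA'
  have hsurj : Function.Surjective (QuotientGroup.mk' D) := QuotientGroup.mk'_surjective D
  have hZn' : (Z.map (QuotientGroup.mk' D)).Normal :=
    Subgroup.Normal.map inferInstance _ hsurj
  have hRk : ¬ R ≤ (QuotientGroup.mk' D).ker := by
    rw [QuotientGroup.ker_mk']
    intro e
    have h1 : R = ⊥ := by rw [← hRD]; exact (inf_eq_left.2 e).symm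
    exact hh1 (Subgroup.mem_bot.1 (h1 ▸ hhR))
  have hloc' := loc_map (QuotientGroup.mk' D) hsurj hloc hRk
  obtain ⟨ρ, hρ⟩ := quo_rho (R := R) (D := D) hRD
  obtain ⟨h', hh'⟩ : ∃ h' : R, h' = ⟨h, hhR⟩ := ⟨_, rfl⟩
  have hh'c : (h' : G) = h := by rw [hh']
  have hρh : ((ρ h' : R.map (QuotientGroup.mk' D)) : G ⧸ D) = QuotientGroup.mk' D h := by
    rw [hρ, hh'c]
    rfl
  have hρe : ∀ r : R.map (QuotientGroup.mk' D), (r : G ⧸ D) = QuotientGroup.mk' D h →
      r = ρ h' := fun r hr => Subtype.ext (hr.trans hρh.symm)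
  -- the image of `h'` under lifts
  have hzp : ∀ (σ : (G ⧸ Z) ≃* (G ⧸ Z)) (τ : R ≃* R),
      (∀ r : R, (((τ r : R) : G) : G ⧸ Z) = σ ((r : G) : G ⧸ Z)) →
        ((τ h' : R) : G) ∈ Subgroup.zpowers h := by
    intro σ τ hτ
    refine zp_mem' hp N hC h _ hhN ?_ hh1 hhp ?_
    · exact lift_mem_N hloc hcen hZ σ τ hτ h' (by rw [hh'c]; exact hhN)
    · have h1 : h' ^ p = 1 := Subtype.ext (by rw [Subgroup.coe_pow, hh'c, hhp, Subgroup.coe_one])
      rw [← Subgroup.coe_pow, ← map_pow, h1, map_one, Subgroup.coe_one]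
  -- lifts of automorphisms of the quotient
  have hnt' : ∀ σ' : ((G ⧸ D) ⧸ Z.map (QuotientGroup.mk' D)) ≃*
      ((G ⧸ D) ⧸ Z.map (QuotientGroup.mk' D)),
      ∃ τ' : R.map (QuotientGroup.mk' D) ≃* R.map (QuotientGroup.mk' D),
        (∀ r, (((τ' r : R.map (QuotientGroup.mk' D)) : G ⧸ D) :
            (G ⧸ D) ⧸ Z.map (QuotientGroup.mk' D)) =
          σ' ((r : G ⧸ D) : (G ⧸ D) ⧸ Z.map (QuotientGroup.mk' D))) ∧
        ∀ r : R.map (QuotientGroup.mk' D), (r : G ⧸ D) = QuotientGroup.mk' D h →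
          ((τ' r : R.map (QuotientGroup.mk' D)) : G ⧸ D) ∈
            Subgroup.zpowers (QuotientGroup.mk' D h) := by
    intro σ'
    obtain ⟨σ, -, hσ⟩ := quo_lift hDZ ρ hρ σ'
    obtain ⟨τ, hτ⟩ := hlift σ
    refine ⟨(ρ.symm.trans τ).trans ρ, (hσ _).2 fun r => ?_, fun r hr => ?_⟩
    · rw [← hτ r]
      simp
    · rw [hρe r hr]
      have h1 : ((ρ.symm.trans τ).trans ρ) (ρ h') = ρ (τ h') := by simp
      rw [h1, hρ]
      obtain ⟨k, hk⟩ := Subgroup.mem_zpowers_iff.1 (hzp σ τ hτ)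
      exact Subgroup.mem_zpowers_iff.2 ⟨k, by rw [← hk]; exact (map_zpow (QuotientGroup.mk' D) h k).symm⟩
  have hex := Knf.exists_setup hp (R.map (QuotientGroup.mk' D))
    (N.map (QuotientGroup.mk' D)) (Z.map (QuotientGroup.mk' D)) (A.map (QuotientGroup.mk' D))
    (B.map (QuotientGroup.mk' D)) hloc' (Subgroup.map_mono hNZ) (quo_cen hRn hRD hcen')
    (fun L M hL _ => quo_uniq hother L M hL) (hA.map _ hsurj) (hB.map _ hsurj)
    (Subgroup.map_mono hRA') (Subgroup.map_mono hZA')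
    (by
      refine lt_of_le_of_ne (Subgroup.map_mono hAB.le) fun e => hAB.ne ?_
      have h1 := congrArg (Subgroup.comap (QuotientGroup.mk' D)) e
      rw [Subgroup.comap_map_eq, Subgroup.comap_map_eq, QuotientGroup.ker_mk',
        sup_eq_left.2 hDA, sup_eq_left.2 (hDA.trans hAB.le)] at h1
      exact h1)
    (by
      rw [← Subgroup.map_commutator]
      exact Subgroup.map_mono hBA)
    (by rw [quo_rel hDA hAB.le]; exact hpB)
    (QuotientGroup.mk' D h) (Subgroup.mem_map_of_mem _ hhN)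
    (by
      intro e
      have h1 : h ∈ D := by
        rw [← QuotientGroup.ker_mk' D]
        exact e
      have h2 : h ∈ R ⊓ D := ⟨hhR, h1⟩
      rw [hRD] at h2
      exact hh1 (Subgroup.mem_bot.1 h2))
    (by rw [← map_pow, hhp, map_one]) hnt'
  refine (fun hh => by
    obtain ⟨A', B', S⟩ := hex hh
    exact Knf.main_inf S (QuotientGroup.mk' D) hsurj) ?_
  rcases hA2 with hA2 | hp2
  · left
    constructor
    · intro σ' x y hxy hx
      obtain ⟨τ', hτ', -⟩ := hnt' σ'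
      rw [hA2, Subgroup.map_sup] at hx ⊢
      have hx' := Subgroup.mem_sup_of_normal_right.1 hx
      obtain ⟨r, hr, z, hz, hrz⟩ := hx'
      have h1 : ((x : G ⧸ D) : (G ⧸ D) ⧸ Z.map (QuotientGroup.mk' D)) = (r : G ⧸ D) := by
        rw [← hrz, QuotientGroup.mk_mul, (QuotientGroup.eq_one_iff z).2 hz, mul_one]
      have h2 := hτ' ⟨r, hr⟩
      rw [← h1, hxy] at h2
      have h3 := QuotientGroup.eq.1 h2
      have h4 : y = ((τ' ⟨r, hr⟩ : R.map (QuotientGroup.mk' D)) : G ⧸ D) *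
          (((τ' ⟨r, hr⟩ : R.map (QuotientGroup.mk' D)) : G ⧸ D)⁻¹ * y) := by group
      rw [h4]
      exact Subgroup.mul_mem_sup (τ' ⟨r, hr⟩).2 h3
    · intro σ' hσ' τ' hτ' r hr
      by_contra hne
      refine hM ?_
      obtain ⟨σ, hσ1, hσ2⟩ := quo_lift hDZ ρ hρ σ'
      refine ⟨σ, (ρ.trans τ').trans ρ.symm, (hσ2 τ').1 hτ', fun x y hxy => ?_, h', ?_, ?_, ?_⟩
      · have h1 := hσ' _ _ ((hσ1 x y).1 hxy)
        have h2 : QuotientGroup.mk' D (x⁻¹ * y) ∈ A.map (QuotientGroup.mk' D) := by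
          rw [map_mul, map_inv]
          exact h1
        have h3 : x⁻¹ * y ∈ (A.map (QuotientGroup.mk' D)).comap (QuotientGroup.mk' D) := h2
        rw [Subgroup.comap_map_eq, QuotientGroup.ker_mk', sup_eq_left.2 hDA, hA2] at h3
        exact h3
      · rw [hh'c]
        exact hhN
      · exact Subtype.ext (by rw [Subgroup.coe_pow, hh'c, hhp, Subgroup.coe_one])
      · intro e
        apply hne
        have h1 : τ' (ρ h') = ρ h' := by
          have h2 := congrArg ρ e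
          simpa using h2
        rw [hρe r hr, h1, hρh]
  · right
    intro σ' τ' hτ' r hr
    obtain ⟨σ, hσ1, hσ2⟩ := quo_lift hDZ ρ hρ σ'
    have h1 := hzp σ _ ((hσ2 τ').1 hτ')
    have h2 : ((((ρ.trans τ').trans ρ.symm) h' : R) : G) = h := by
      refine zp_two h _ ?_ (by rw [← hp2]; exact hhp) h1
      intro e
      have h3 : ((ρ.trans τ').trans ρ.symm) h' = 1 := Subtype.ext e
      rw [map_eq_one_iff _ (MulEquiv.injective _)] at h3
      exact hh1 (by rw [← hh'c, h3, Subgroup.coe_one])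
    have h3 : ((ρ.trans τ').trans ρ.symm) h' = h' := Subtype.ext (h2.trans hh'c.symm)
    have h4 : τ' (ρ h') = ρ h' := by
      have h5 := congrArg ρ h3
      simpa using h5
    rw [hρe r hr, h4, hρh]

end Crt

end MP799fdf
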