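import Pool.Agent.Lib.MP_799fdf_al.Crt.SysC
import Pool.Agent.Lib.MP_799fdf_al.Crt.QuoC

/-! # The criterion -/

set_option autoImplicit false

open scoped commutatorElement

namespace MP799fdf

namespace Crt

open Inn
open Cop (TT TA)

/-- THE THEOREM. -/
theorem main (G : Type) [Group G] [Finite G] (h1 : Tz.CZ G)
    (hdir : ∀ R N : Subgroup G, Loc R N → ∃ D : Subgroup G, D.Normal ∧ R ⊓ D = ⊥ ∧
      ∀ L M : Subgroup G, Loc L M → L ≠ R → L ≤ D)
    (hl : Lifts G)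
    (hC : ∀ R N : Subgroup G, Loc R N → ∀ p : ℕ, p.Prime → p ∣ Nat.card N →
      p ∣ (R ⊔ Subgroup.centralizer (R : Set G)).index → Cyc p N ∧
        ∃ A B : Subgroup G, A.Normal ∧ B.Normal ∧ R ⊔ Subgroup.centralizer (R : Set G) ≤ A ∧
          A < B ∧ ⁅B, B⁆ ≤ A ∧ p ∣ A.relIndex B ∧
            (A = R ⊔ Subgroup.centralizer (R : Set G) ∨ p = 2)) :
    {F : Formation | F.IsSub (form G)}.Finite ↔
      ∀ R N Z : Subgroup G, Loc R N → ∀ [Z.Normal], Z = Subgroup.centralizer (R : Set G) →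
        ∀ p : ℕ, p.Prime → p ∣ Nat.card N → p ∣ (R ⊔ Z).index → Moved p R N Z := by
  constructor
  · intro hfin R N Z hloc _ hZ p hp hpN hpi
    by_contra hM
    obtain ⟨D, hD, hRD, hother⟩ := hdir R N hloc
    rw [hZ] at hpi
    obtain ⟨hc, A, B, hA, hB, hRA, hAB, hBA, hpB, hA2⟩ := hC R N hloc p hp hpN hpi
    rw [← hZ] at hRA hA2
    exact inf_one hp hloc (h1 R N hloc) hZ hRD hother
      (fun σ => hl R N R N Z Z hloc hloc hZ hZ σ) hc hpN hA hB hRA hAB hBA hpB hA2 hM hfin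
  · intro h
    refine Tz.mainU (lsys h1 hl) h1 (cu_sys h1 hl
      (fun τ p hp hpN hpi => (hC τ.1.1 τ.1.2 τ.2 p hp hpN hpi).1) fun τ p hp hpN hpi => ?_)
    have e := Tz.cen_eq τ.2 (h1 τ.1.1 τ.1.2 τ.2)
    refine h τ.1.1 τ.1.2 _ τ.2 e p hp hpN ?_
    rw [e]
    exact hpi

end Crt

end MP799fdf
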