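import Pool.Agent.Lib.MP_799fdf_al.Crt.Defs

set_option autoImplicit false

open scoped commutatorElement

namespace MP799fdf

namespace Crt

open Inn

variable {G : Type} [Group G] {R N D Z : Subgroup G} [D.Normal]

/-- PROOF. If `g D` commutes with all `r D` then `⁅g, r⁆ ∈ D ⊓ R = ⊥`, so `g` commutes with all `r ∈ R`. -/
theorem quo_cen (hR : R.Normal) (hRD : R ⊓ D = ⊥) (hZ : ∀ g : G, g ∈ Z ↔ ∀ r ∈ R, g * r = r * g)
    (g : G ⧸ D) :
    g ∈ Z.map (QuotientGroup.mk' D) ↔ ∀ r ∈ R.map (QuotientGroup.mk' D), g * r = r * g := by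
  constructor
  · rintro ⟨z, hz, rfl⟩ _ ⟨r, hr, rfl⟩
    rw [← map_mul, ← map_mul, (hZ z).1 hz r hr]
  · intro h
    obtain ⟨x, rfl⟩ := QuotientGroup.mk'_surjective D g
    refine ⟨x, (hZ x).2 fun r hr => ?_, rfl⟩
    have h1 := h (QuotientGroup.mk' D r) ⟨r, hr, rfl⟩
    have h2 : ⁅x, r⁆ ∈ D := by
      have h3 : QuotientGroup.mk' D ⁅x, r⁆ = 1 := by
        rw [map_commutatorElement]
        exact commutatorElement_eq_one_iff_mul_comm.2 h1
      rwa [← MonoidHom.mem_ker, QuotientGroup.ker_mk'] at h3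
    have h4 : ⁅x, r⁆ ∈ R := by
      rw [commutatorElement_def]
      exact R.mul_mem (hR.conj_mem r hr x) (R.inv_mem hr)
    have h5 : ⁅x, r⁆ ∈ R ⊓ D := ⟨h4, h2⟩
    rw [hRD, Subgroup.mem_bot] at h5
    exact commutatorElement_eq_one_iff_mul_comm.1 h5

/-- PROOF. `loc_lift (mk' D)`: `L = L'.map _`, `(L', N')` local in `G`. If `L' ≠ R` then `L' ≤ D` and `L = ⊥`,
but `M < L`. -/
theorem quo_uniq [Finite G] (hother : ∀ L M : Subgroup G, Loc L M → L ≠ R → L ≤ D)
    (L M : Subgroup (G ⧸ D)) (h : Loc L M) : L = R.map (QuotientGroup.mk' D) := by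
  obtain ⟨L', N', h1, h2, -⟩ := loc_lift (QuotientGroup.mk' D) (QuotientGroup.mk'_surjective D) h
  by_cases h3 : L' = R
  · rw [← h2, h3]
  · exfalso
    have h4 : L' ≤ D := hother L' N' h1 h3
    have h5 : L = ⊥ := by
      rw [← h2, eq_bot_iff]
      rintro _ ⟨x, hx, rfl⟩
      have h6 : QuotientGroup.mk' D x = 1 := by
        rw [← MonoidHom.mem_ker, QuotientGroup.ker_mk']
        exact h4 hx
      rw [Subgroup.mem_bot]
      exact h6
    have h7 := h.lt
    rw [h5] at h7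
    exact not_lt_bot h7

/-- PROOF. `R → R D / D`, `r ↦ r D`, is bijective, because `R ⊓ D = ⊥` (`MulEquiv.ofBijective`). -/
theorem quo_rho (hRD : R ⊓ D = ⊥) : ∃ ρ : R ≃* R.map (QuotientGroup.mk' D),
    ∀ r : R, ((ρ r : R.map (QuotientGroup.mk' D)) : G ⧸ D) = ((r : G) : G ⧸ D) := by
  have hinj : Function.Injective ((QuotientGroup.mk' D).subgroupMap R) := by
    rw [injective_iff_map_eq_one]
    intro r hr
    have h1 : QuotientGroup.mk' D (r : G) = 1 := congrArg Subtype.val hr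
    rw [← MonoidHom.mem_ker, QuotientGroup.ker_mk'] at h1
    have h2 : (r : G) ∈ R ⊓ D := ⟨r.2, h1⟩
    rw [hRD, Subgroup.mem_bot] at h2
    exact Subtype.ext h2
  exact ⟨MulEquiv.ofBijective ((QuotientGroup.mk' D).subgroupMap R)
    ⟨hinj, MonoidHom.subgroupMap_surjective _ _⟩, fun r => rfl⟩

end Crt

end MP799fdf
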