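import Pool.Agent.Lib.MP_799fdf_al.Crt.Defs

set_option autoImplicit false

open scoped commutatorElement

namespace MP799fdf

namespace Crt

open Inn

variable {G : Type} [Group G] {R N D Z : Subgroup G} [D.Normal]

/-- PROOF. `QuotientGroup.quotientQuotientEquivQuotient D Z h` (the third isomorphism theorem). -/
theorem quo_theta [Z.Normal] (hDZ : D ≤ Z) [(Z.map (QuotientGroup.mk' D)).Normal] :
    ∃ θ : ((G ⧸ D) ⧸ Z.map (QuotientGroup.mk' D)) ≃* (G ⧸ Z),
      ∀ x : G, θ (((x : G ⧸ D)) : (G ⧸ D) ⧸ Z.map (QuotientGroup.mk' D)) = (x : G ⧸ Z) :=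
  ⟨QuotientGroup.quotientQuotientEquivQuotient D Z hDZ, fun x =>
    QuotientGroup.quotientQuotientEquivQuotientAux_mk_mk D Z hDZ x⟩

/-- PROOF. `A = (A.map _).comap _` (`Subgroup.comap_map_eq`, `QuotientGroup.ker_mk'`, `D ≤ A`) and the same for `B`;
`Subgroup.relIndex_comap`/`Subgroup.relIndex_map` ... -/
theorem quo_rel {A B : Subgroup G} (hDA : D ≤ A) (hAB : A ≤ B) :
    (A.map (QuotientGroup.mk' D)).relIndex (B.map (QuotientGroup.mk' D)) = A.relIndex B := by
  rw [Subgroup.relIndex_map_map, QuotientGroup.ker_mk', sup_eq_left.2 hDA,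
    sup_eq_left.2 (hDA.trans hAB)]

end Crt

end MP799fdf
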