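import Pool.Agent.Lib.MP_799fdf_al.Crt.QuoA
import Pool.Agent.Lib.MP_799fdf_al.Crt.QuoA2

set_option autoImplicit false

open scoped commutatorElement

namespace MP799fdf

namespace Crt

open Inn

variable {G : Type} [Group G] {R N D Z A B : Subgroup G} [D.Normal]

/-- PROOF. Let `ρ` be as in `quo_rho` and `θ` as in `quo_theta` (`D ≤ Z` because `⁅D, R⁆ ≤ R ⊓ D = ⊥`). For `σ'` let
`σ = θ.symm.trans (σ'.trans θ)`; `σ'` corresponds to `σ`, and lifts `τ` of `σ` correspond to lifts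
`τ' = ρ.symm.trans (τ.trans ρ)` of `σ'`: `σ' ((ρ r : G ⧸ D)) = σ' (r D) = θ.symm (σ (r Z)) = θ.symm (τ r Z) = τ r D`. -/
theorem quo_lift [Z.Normal] (hDZ : D ≤ Z) [(Z.map (QuotientGroup.mk' D)).Normal]
    (ρ : R ≃* R.map (QuotientGroup.mk' D))
    (hρ : ∀ r : R, ((ρ r : R.map (QuotientGroup.mk' D)) : G ⧸ D) = ((r : G) : G ⧸ D))
    (σ' : ((G ⧸ D) ⧸ Z.map (QuotientGroup.mk' D)) ≃* ((G ⧸ D) ⧸ Z.map (QuotientGroup.mk' D))) :
    ∃ σ : (G ⧸ Z) ≃* (G ⧸ Z),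
      (∀ x y : G, σ (x : G ⧸ Z) = (y : G ⧸ Z) ↔
        σ' (((x : G ⧸ D)) : (G ⧸ D) ⧸ Z.map (QuotientGroup.mk' D)) =
          (((y : G ⧸ D)) : (G ⧸ D) ⧸ Z.map (QuotientGroup.mk' D))) ∧
      ∀ τ' : R.map (QuotientGroup.mk' D) ≃* R.map (QuotientGroup.mk' D),
        (∀ r, (((τ' r : R.map (QuotientGroup.mk' D)) : G ⧸ D) :
            (G ⧸ D) ⧸ Z.map (QuotientGroup.mk' D)) =
          σ' ((r : G ⧸ D) : (G ⧸ D) ⧸ Z.map (QuotientGroup.mk' D))) ↔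
        ∀ r : R, (((((ρ.trans τ').trans ρ.symm) r : R) : G) : G ⧸ Z) = σ ((r : G) : G ⧸ Z) := by
  obtain ⟨θ, hθ⟩ := quo_theta (Z := Z) hDZ
  have hx : ∀ x : G, θ.symm (x : G ⧸ Z) =
      (((x : G ⧸ D)) : (G ⧸ D) ⧸ Z.map (QuotientGroup.mk' D)) := by
    intro x
    rw [← hθ x, θ.symm_apply_apply]
  have hs : ∀ (τ' : R.map (QuotientGroup.mk' D) ≃* R.map (QuotientGroup.mk' D)) (r : R),
      (((((ρ.trans τ').trans ρ.symm) r : R) : G) : G ⧸ D) =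
        ((τ' (ρ r) : R.map (QuotientGroup.mk' D)) : G ⧸ D) := by
    intro τ' r
    rw [← hρ, MulEquiv.trans_apply, MulEquiv.trans_apply, ρ.apply_symm_apply]
  refine ⟨(θ.symm.trans σ').trans θ, ?_, ?_⟩
  · intro x y
    rw [MulEquiv.trans_apply, MulEquiv.trans_apply, hx, ← hθ y]
    exact ⟨fun h => θ.injective h, fun h => by rw [h]⟩
  · intro τ'
    constructor
    · intro h r
      have h1 := h (ρ r)
      rw [← hs τ' r, hρ] at h1
      rw [MulEquiv.trans_apply (θ.symm.trans σ'), MulEquiv.trans_apply θ.symm, hx, ← h1, hθ]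
    · intro h r'
      obtain ⟨r, rfl⟩ := ρ.surjective r'
      have h1 := h r
      rw [MulEquiv.trans_apply (θ.symm.trans σ'), MulEquiv.trans_apply θ.symm, hx, ← hθ] at h1
      have h2 := θ.injective h1
      rw [← hs τ' r, hρ]
      exact h2

end Crt

end MP799fdf
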