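import Pool.Agent.Lib.MP_799fdf_al.Crt.Defs

set_option autoImplicit false

open scoped commutatorElement

namespace MP799fdf

namespace Crt

open Inn
open Cop (TT TA)
open Tw (TB TC)

variable {G : Type} [Group G]

/-- the map from a local subgroup to `TA G τ` -/
def lep (τ : TT G) : τ.1.1 →* TA G τ :=
  (QuotientGroup.mk' (cen τ.1.1 τ.1.2 τ.2.nN)).comp τ.1.1.subtype

/-- PROOF. `⁅⊤, ⊤⁆.map R.subtype = ⁅R, R⁆ = R` (`Subgroup.map_commutator`), `map` along the injective `subtype` is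
injective. -/
theorem lep_perf (τ : TT G) : ⁅(⊤ : Subgroup τ.1.1), (⊤ : Subgroup τ.1.1)⁆ = ⊤ := by
  apply Subgroup.map_injective (Subgroup.subtype_injective τ.1.1)
  rw [Subgroup.map_commutator, ← MonoidHom.range_eq_map, Subgroup.range_subtype]
  exact τ.2.perf

/-- PROOF. `lep τ z = 1` means `z ∈ cen τ.1.1 τ.1.2 _`, so `z` commutes with all elements of `τ.1.1` (`Cop.cen_iff`). -/
theorem lep_cent (h1 : Tz.CZ G) (τ : TT G) (z : τ.1.1) (hz : lep τ z = 1) (x : τ.1.1) :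
    Commute z x := by
  have h2 : (z : G) ∈ cen τ.1.1 τ.1.2 τ.2.nN := (QuotientGroup.eq_one_iff _).1 hz
  rw [Cop.cen_iff τ.2 (h1 _ _ τ.2)] at h2
  exact Subtype.ext (h2 x x.2)

/-- PROOF. `hl τ.1.1 τ.1.2 τ'.1.1 τ'.1.2 (cen ..) (cen ..) τ.2 τ'.2 (Tz.cen_eq ..) (Tz.cen_eq ..) β`. -/
theorem lep_lift (h1 : Tz.CZ G) (hl : Lifts G) (τ τ' : TT G) (β : TA G τ ≃* TA G τ') :
    ∃ b : τ.1.1 ≃* τ'.1.1, ∀ x, lep τ' (b x) = β (lep τ x) := by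
  obtain ⟨b, hb⟩ := hl τ.1.1 τ.1.2 τ'.1.1 τ'.1.2 (cen τ.1.1 τ.1.2 τ.2.nN)
    (cen τ'.1.1 τ'.1.2 τ'.2.nN) τ.2 τ'.2 (Tz.cen_eq τ.2 (h1 _ _ τ.2))
    (Tz.cen_eq τ'.2 (h1 _ _ τ'.2)) β
  exact ⟨b, fun x => hb x⟩

theorem lep_bas (τ : TT G) : ∃ π : τ.1.1 →* G, π.range = τ.1.1 ∧
    ∀ x, QuotientGroup.mk' (cen τ.1.1 τ.1.2 τ.2.nN) (π x) = lep τ x :=
  ⟨τ.1.1.subtype, Subgroup.range_subtype _, fun _ => rfl⟩

/-- the local subgroups as covers -/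
def lsys (h1 : Tz.CZ G) (hl : Lifts G) : Tz.USys G (fun τ => τ.1.1) where
  ep := lep
  perf := lep_perf
  cent := lep_cent h1
  lift := fun τ τ' β _ => lep_lift h1 hl τ τ' β
  bas := lep_bas

end Crt

end MP799fdf
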