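import Pool.Agent.Lib.MP_799fdf_al.Crt.SysA

set_option autoImplicit false

open scoped commutatorElement

namespace MP799fdf

namespace Crt

open Inn
open Cop (TT TA)
open Tw (TB TC)

variable {G : Type} [Group G]

/-- PROOF. `(⊤ : Subgroup (TA G τ)).map (mk' TB)` has order `(R ⊔ cen).index`; `B.map` is a subgroup of it (Lagrange).
In detail: `TA G τ ⧸ TB G τ` has order `(TB G τ).index = (R ⊔ cen).index`, since the preimage of `TB G τ = R.map (mk' cen)`
in `G` is `R ⊔ cen` (`Subgroup.comap_map_eq`, `QuotientGroup.ker_mk'`, `Subgroup.index_comap_of_surjective`). Here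
`cen = centralizer R` by `Tz.cen_eq`. -/
theorem card_dvd (h1 : Tz.CZ G) (τ : TT G) (B : Subgroup (TA G τ)) :
    Nat.card (B.map (QuotientGroup.mk' (TB G τ))) ∣
      (τ.1.1 ⊔ Subgroup.centralizer (τ.1.1 : Set G)).index := by
  have h2 : (τ.1.1 ⊔ Subgroup.centralizer (τ.1.1 : Set G)).index = (TB G τ).index := by
    rw [← Tz.cen_eq τ.2 (h1 τ.1.1 τ.1.2 τ.2),
      ← Subgroup.index_comap_of_surjective (TB G τ)
        (QuotientGroup.mk'_surjective (cen τ.1.1 τ.1.2 τ.2.nN))]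
    congr 1
    have h3 := Subgroup.comap_map_eq (QuotientGroup.mk' (cen τ.1.1 τ.1.2 τ.2.nN)) τ.1.1
    rw [QuotientGroup.ker_mk'] at h3
    exact h3.symm
  rw [h2, Subgroup.index_eq_card]
  exact Subgroup.card_subgroup_dvd_card _

/-- PROOF. `H` is a subgroup of the kernel of `lep τ`, which is `R ⊓ cen = N` (`loc_inf_cen`; as a subgroup of
`↥R` it is `N.subgroupOf R`), so `Y.relIndex H ∣ card H ∣ card N` (`Subgroup.relIndex_dvd_card`,
`Subgroup.card_dvd_of_le`, `Subgroup.subgroupOf` and `N ≤ R`: `Nat.card (N.subgroupOf R) = Nat.card N`). -/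
theorem rel_dvd [Finite G] (τ : TT G) (H Y : Subgroup τ.1.1) (hH : ∀ z ∈ H, lep τ z = 1) :
    Y.relIndex H ∣ Nat.card τ.1.2 := by
  refine (Subgroup.relIndex_dvd_card Y H).trans ?_
  have h1 : H.map τ.1.1.subtype ≤ τ.1.2 := by
    rintro _ ⟨z, hz, rfl⟩
    refine loc_inf_cen τ.2 (Subgroup.mem_inf.2 ⟨z.2, ?_⟩)
    exact (QuotientGroup.eq_one_iff (z : G)).1 (hH z hz)
  have h2 : Nat.card (H.map τ.1.1.subtype) = Nat.card H :=
    (Nat.card_congr (H.equivMapOfInjective τ.1.1.subtype τ.1.1.subtype_injective).toEquiv).symm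
  rw [← h2]
  exact Subgroup.card_dvd_of_le h1

end Crt

end MP799fdf
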