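import Pool.Agent.Lib.MP_799fdf_al.Crt.SysB
import Pool.Agent.Lib.MP_799fdf_al.Crt.CycC

set_option autoImplicit false

open scoped commutatorElement

namespace MP799fdf

namespace Crt

open Inn
open Cop (TT TA)
open Tw (TB TC)

variable {G : Type} [Group G]

/-- PROOF. Suppose that `p` divides the order of `B.map _`. Then `p` divides the order of `N` (`rel_dvd`) and the index
of `R C(R)` (`card_dvd`). `hM` gives `σ, τ', h`. The pair `(σ, τ')` is a twist: `q : Tz.Tht (lsys h1 hl) τ`, where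
`mk' (TB G τ) (σ x) = mk' (TB G τ) x` for all `x` follows from `x⁻¹ * y ∈ R ⊔ Z`. The last clause of `hSec` for `q` says
`τ' z * z⁻¹ ∈ Y` for all `z ∈ H`. Apply `cyc_fix` in the group `↥R` with `N.subgroupOf R` in place of `N` (its elements
commute with everything, as `⁅N, R⁆ = ⊥`; `Cyc p (N.subgroupOf R)` follows from `hC`; `τ'` maps it to itself as
`N = R ⊓ cen` and `τ'` lifts `σ`), to get `τ' h = h`, a contradiction. -/
theorem cu_sys [Finite G] (h1 : Tz.CZ G) (hl : Lifts G)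
    (hC : ∀ (τ : TT G) (p : ℕ), p.Prime → p ∣ Nat.card τ.1.2 →
      p ∣ (τ.1.1 ⊔ Subgroup.centralizer (τ.1.1 : Set G)).index → Cyc p τ.1.2)
    (hM : ∀ (τ : TT G) (p : ℕ), p.Prime → p ∣ Nat.card τ.1.2 →
      p ∣ (τ.1.1 ⊔ Subgroup.centralizer (τ.1.1 : Set G)).index →
        Moved p τ.1.1 τ.1.2 (cen τ.1.1 τ.1.2 τ.2.nN)) :
    Tz.CU (lsys h1 hl) := by
  intro τ H Y hSec p hp hpd B _ hpB
  have hker : ∀ z ∈ H, lep τ z = 1 := hSec.1
  have hpI : p ∣ (τ.1.1 ⊔ Subgroup.centralizer (τ.1.1 : Set G)).index :=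
    hpB.trans (card_dvd h1 τ B)
  have hpN : p ∣ Nat.card τ.1.2 := hpd.trans (rel_dvd τ H Y hker)
  obtain ⟨σ, φ, hφ, hσ, h, hhN, hhp, hne⟩ := hM τ p hp hpN hpI
  have hq1 : ∀ x, (lsys h1 hl).ep τ (φ x) = σ ((lsys h1 hl).ep τ x) := hφ
  have hq2 : ∀ x : TA G τ,
      QuotientGroup.mk' (TB G τ) (σ x) = QuotientGroup.mk' (TB G τ) x := by
    intro x
    obtain ⟨x, rfl⟩ := QuotientGroup.mk_surjective x
    obtain ⟨y, hy⟩ := QuotientGroup.mk_surjective (σ (x : TA G τ))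
    have h2 := hσ x y hy.symm
    rw [← hy]
    refine (QuotientGroup.eq.2 ?_).symm
    have h3 : QuotientGroup.mk' (cen τ.1.1 τ.1.2 τ.2.nN) (x⁻¹ * y) ∈
        (τ.1.1 ⊔ cen τ.1.1 τ.1.2 τ.2.nN).map (QuotientGroup.mk' (cen τ.1.1 τ.1.2 τ.2.nN)) :=
      Subgroup.mem_map_of_mem _ h2
    rw [Subgroup.map_sup, QuotientGroup.map_mk'_self, sup_bot_eq] at h3
    exact h3
  have hf : ∀ z ∈ H, φ z * z⁻¹ ∈ Y := hSec.2.2.2 ⟨(σ, φ), hq1, hq2⟩
  have hNR : ⁅τ.1.2, τ.1.1⁆ = ⊥ := h1 τ.1.1 τ.1.2 τ.2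
  have hcm : ∀ z ∈ τ.1.2, ∀ x ∈ τ.1.1, ⁅z, x⁆ = 1 := by
    intro z hz x hx
    have h5 := Subgroup.commutator_mem_commutator hz hx
    rwa [hNR, Subgroup.mem_bot] at h5
  have hN : ∀ z ∈ τ.1.2.subgroupOf τ.1.1, ∀ x, Commute z x := by
    intro z hz x
    have h5 := commutatorElement_eq_one_iff_commute.1
      (hcm z (Subgroup.mem_subgroupOf.1 hz) x x.2)
    exact Subtype.ext h5.eq
  have hc : Cyc p (τ.1.2.subgroupOf τ.1.1) := by
    obtain ⟨c, hcN, hc⟩ := hC τ p hp hpN hpI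
    refine ⟨⟨c, τ.2.lt.le hcN⟩, Subgroup.mem_subgroupOf.2 hcN, ?_⟩
    rintro x hx ⟨k, hk⟩
    obtain ⟨n, hn⟩ := Subgroup.mem_zpowers_iff.1
      (hc x (Subgroup.mem_subgroupOf.1 hx) ⟨k, congrArg Subtype.val hk⟩)
    exact Subgroup.mem_zpowers_iff.2 ⟨n, Subtype.ext hn⟩
  have hφN : ∀ z ∈ τ.1.2.subgroupOf τ.1.1, φ.toMonoidHom z ∈ τ.1.2.subgroupOf τ.1.1 := by
    intro z hz
    have hz' := Subgroup.mem_subgroupOf.1 hz
    have hzc : ((z : G) : TA G τ) = 1 := by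
      refine (QuotientGroup.eq_one_iff _).2 fun x hx => ?_
      rw [hcm z hz' x hx]
      exact Subgroup.one_mem _
    have h5 : (((φ z : τ.1.1) : G) : TA G τ) = 1 := by
      rw [hφ z, hzc, map_one]
    exact Subgroup.mem_subgroupOf.2
      (loc_inf_cen τ.2 ⟨(φ z).2, (QuotientGroup.eq_one_iff _).1 h5⟩)
  have hHN : H ≤ τ.1.2.subgroupOf τ.1.1 := by
    intro z hz
    have h5 : ((z : G) : TA G τ) = 1 := hker z hz
    exact Subgroup.mem_subgroupOf.2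
      (loc_inf_cen τ.2 ⟨z.2, (QuotientGroup.eq_one_iff _).1 h5⟩)
  exact hne (cyc_fix hp (τ.1.2.subgroupOf τ.1.1) Y H hN hc φ.toMonoidHom hφN hHN hSec.2.1.le hpd
    hf h (Subgroup.mem_subgroupOf.2 hhN) hhp)

end Crt

end MP799fdf
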